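import Pool.Agent.N510.GR.CGrad

/-!
# Commutative graded rings without finiteness conditions
-/

set_option autoImplicit false

namespace Pool.Agent.N510.GR

open Pool.Agent.Y110.FJ
open Pool.Agent.N77.GL
open Polynomial DirectSum

section subring

variable {R : Type} [CommRing R]

theorem mem_range_mG (T : Subring R) (M : G2 R) (h1 : ∀ i j, M.1 i j ∈ T)
    (h2 : ∀ i j, (M⁻¹).1 i j ∈ T) : M ∈ (mG T.subtype).range := by
  let a : Matrix (Fin 2) (Fin 2) T := Matrix.of fun i j => ⟨M.1 i j, h1 i j⟩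
  let b : Matrix (Fin 2) (Fin 2) T := Matrix.of fun i j => ⟨(M⁻¹).1 i j, h2 i j⟩
  have hinjm : Function.Injective (T.subtype.mapMatrix (α := T) (m := Fin 2)) := by
    intro M N hMN
    ext1 i j
    exact Subtype.val_injective (congrFun (congrFun hMN i) j)
  have ha : T.subtype.mapMatrix a = M.1 := by
    ext i j; rfl
  have hb : T.subtype.mapMatrix b = (M⁻¹).1 := by
    ext i j; rfl
  refine ⟨⟨a, b, ?_, ?_⟩, ?_⟩
  · apply hinjm
    rw [map_mul, ha, hb, map_one, M.mul_inv]
  · apply hinjm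
    rw [map_mul, ha, hb, map_one, M.inv_mul]
  · apply Units.ext
    exact ha

end subring

section all

variable {R : Type} [CommRing R] (𝒜 : ℕ → AddSubgroup R) [GradedRing 𝒜]

/-- the homogeneous components of the elements of a finite set -/
def gens (E : Finset R) : Set R := {y | ∃ x ∈ E, ∃ n, y = (decompose 𝒜 x n : R)}

theorem gens_finite (E : Finset R) : (gens 𝒜 E).Finite := by
  classical
  refine (insert (0 : R) (E.biUnion fun x => (decompose 𝒜 x).support.image
    fun n => (decompose 𝒜 x n : R))).finite_toSet.subset ?_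
  rintro y ⟨x, hx, n, rfl⟩
  rw [Finset.coe_insert]
  by_cases h : decompose 𝒜 x n = 0
  · left
    rw [h]; rfl
  · right
    rw [Finset.mem_coe, Finset.mem_biUnion]
    refine ⟨x, hx, ?_⟩
    rw [Finset.mem_image]
    exact ⟨n, DFinsupp.mem_support_iff.2 h, rfl⟩

variable (B : Subring R)

/-- the subring generated by `B` and the homogeneous components -/
noncomputable def TE (E : Finset R) : Subring R :=
  (MvPolynomial.eval₂Hom B.subtype (Subtype.val : gens 𝒜 E → R)).range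

theorem gens_sub (E : Finset R) {y : R} (hy : y ∈ gens 𝒜 E) : y ∈ TE 𝒜 B E :=
  ⟨MvPolynomial.X ⟨y, hy⟩, by
    rw [MvPolynomial.coe_eval₂Hom, MvPolynomial.eval₂_X]⟩

theorem B_sub (E : Finset R) : B ≤ TE 𝒜 B E := fun b hb =>
  ⟨MvPolynomial.C ⟨b, hb⟩, by
    rw [MvPolynomial.coe_eval₂Hom, MvPolynomial.eval₂_C]
    rfl⟩

theorem TE_le (E : Finset R) (S : Subring R) (hB : B ≤ S) (h : gens 𝒜 E ⊆ S) : TE 𝒜 B E ≤ S := by
  rintro _ ⟨p, rfl⟩
  induction p using MvPolynomial.induction_on with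
  | C a =>
    rw [MvPolynomial.coe_eval₂Hom, MvPolynomial.eval₂_C]
    exact hB a.2
  | add p q hp hq => rw [map_add]; exact S.add_mem hp hq
  | mul_X p i hp =>
    rw [map_mul]
    refine S.mul_mem hp ?_
    rw [MvPolynomial.coe_eval₂Hom, MvPolynomial.eval₂_X]
    exact h i.2

theorem TE_mono {E E' : Finset R} (h : E ≤ E') : TE 𝒜 B E ≤ TE 𝒜 B E' := by
  apply TE_le 𝒜 B E _ (B_sub 𝒜 B E')
  rintro y ⟨x, hx, n, rfl⟩
  exact gens_sub 𝒜 B E' ⟨x, h hx, n, rfl⟩

theorem mem_TE (E : Finset R) {x : R} (hx : x ∈ E) : x ∈ TE 𝒜 B E := by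
  classical
  rw [← DirectSum.sum_support_decompose 𝒜 x]
  exact sum_mem fun n _ => gens_sub 𝒜 B E ⟨x, hx, n, rfl⟩

instance (E : Finset R) [IsNoetherianRing B] : IsNoetherianRing (TE 𝒜 B E) := by
  have h1 : Finite (gens 𝒜 E) := (gens_finite 𝒜 E).to_subtype
  unfold TE
  infer_instance

theorem TE_hom (hB : ∀ x ∈ B, x ∈ 𝒜 0) (E : Finset R) (x : TE 𝒜 B E) :
    hR 𝒜 (x : R) ∈ (iT (TE 𝒜 B E)).range := by
  have h1 : TE 𝒜 B E ≤ (iT (TE 𝒜 B E)).range.comap (hR 𝒜) := by
    apply TE_le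
    · intro b hb
      show hR 𝒜 b ∈ (iT (TE 𝒜 B E)).range
      rw [hR_of_mem 𝒜 (hB b hb)]
      refine ⟨monomial 0 ⟨b, B_sub 𝒜 B E hb⟩, ?_⟩
      show Polynomial.map (TE 𝒜 B E).subtype _ = _
      rw [Polynomial.map_monomial]
      rfl
    · rintro y ⟨x, hx, n, rfl⟩
      show hR 𝒜 (decompose 𝒜 x n : R) ∈ (iT (TE 𝒜 B E)).range
      rw [hR_of_mem 𝒜 (decompose 𝒜 x n).2]
      refine ⟨monomial n ⟨(decompose 𝒜 x n : R), gens_sub 𝒜 B E ⟨x, hx, n, rfl⟩⟩, ?_⟩
      show Polynomial.map (TE 𝒜 B E).subtype _ = _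
      rw [Polynomial.map_monomial]
      rfl
  exact h1 x.2

variable {C : ∀ (G : Type) [Group G], Prop}

/-- **commutative graded rings** -/
theorem comm_graded (hC : ClosedE C) (hsol : ∀ (S : Type) [Group S], Group.IsSolvable S → C S)
    [IsNoetherianRing B] (hB : ∀ x ∈ B, x ∈ 𝒜 0)
    (H : ∀ (S : Subring R), B ≤ S → (∀ x ∈ S, x ∈ 𝒜 0) → ∀ (K : Type) [Field K] (h : S →+* K),
      C (G2 h.range)) : C (G2 R) := by
  classical
  refine Pool.Agent.Y430.SS.of_directed hC.base (G2 R) (Finset R)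
    (fun i j => ⟨i ∪ j, Finset.subset_union_left, Finset.subset_union_right⟩)
    (fun E => (mG (TE 𝒜 B E).subtype).range) ?_ ?_ ?_
  · rintro E E' h _ ⟨M, rfl⟩
    apply mem_range_mG
    · intro i j
      rw [mG_apply]
      exact TE_mono 𝒜 B h (M.1 i j).2
    · intro i j
      rw [← map_inv, mG_apply]
      exact TE_mono 𝒜 B h ((M⁻¹).1 i j).2
  · intro M
    let E : Finset R := (Finset.univ.image fun ij : Fin 2 × Fin 2 => M.1 ij.1 ij.2) ∪
      (Finset.univ.image fun ij : Fin 2 × Fin 2 => (M⁻¹).1 ij.1 ij.2)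
    refine ⟨E, mem_range_mG _ _ ?_ ?_⟩
    · intro i j
      apply mem_TE
      exact Finset.mem_union_left _ (Finset.mem_image.2 ⟨(i, j), Finset.mem_univ _, rfl⟩)
    · intro i j
      apply mem_TE
      exact Finset.mem_union_right _ (Finset.mem_image.2 ⟨(i, j), Finset.mem_univ _, rfl⟩)
  · intro E
    refine hC.base.of_injective _ _
      (MonoidHom.ofInjective
        (mG_inj (TE 𝒜 B E).subtype (TE 𝒜 B E).subtype_injective)).symm.toMonoidHom
      (MonoidHom.ofInjective
        (mG_inj (TE 𝒜 B E).subtype (TE 𝒜 B E).subtype_injective)).symm.injective ?_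
    exact noeth_graded 𝒜 (TE 𝒜 B E) hC hsol B hB (B_sub 𝒜 B E) H (TE_hom 𝒜 B hB E)

/-- the degree zero part is a field -/
theorem comm_field (hC : ClosedE C) (hsol : ∀ (S : Type) [Group S], Group.IsSolvable S → C S)
    (hF : IsField (𝒜 0)) : C (G2 R) ↔ C (G2 (𝒜 0)) := by
  constructor
  · intro h
    exact of_ringEquiv hC (SetLike.GradeZero.subring 𝒜).subtype Subtype.val_injective h
  · intro h
    let _ : Field (𝒜 0) := hF.toField
    have hN : IsNoetherianRing (SetLike.GradeZero.subring 𝒜) := by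
      have h1 : IsNoetherianRing (𝒜 0) := inferInstance
      exact h1
    refine comm_graded 𝒜 (SetLike.GradeZero.subring 𝒜) hC hsol (fun x hx => hx) ?_
    intro S hS hS0 K _ f
    let g : (𝒜 0) →+* f.range := f.rangeRestrict.comp
      (Subring.inclusion hS : (SetLike.GradeZero.subring 𝒜) →+* S)
    have hg : Function.Bijective g := by
      constructor
      · exact RingHom.injective g
      · rintro ⟨_, x, rfl⟩
        exact ⟨⟨x.1, hS0 _ x.2⟩, rfl⟩
    exact of_ringEquiv hC (RingEquiv.ofBijective g hg).symm.toRingHom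
      (RingEquiv.ofBijective g hg).symm.injective h

end all

end Pool.Agent.N510.GR
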