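import Pool.Agent.N510.GR.Quot
import Pool.Agent.Y430.SS.Lf

/-!
# Commutative graded rings
-/

set_option autoImplicit false

namespace Pool.Agent.N510.GR

open Pool.Agent.Y110.FJ
open Pool.Agent.N77.GL
open Polynomial DirectSum

section hom

variable {R : Type} [CommRing R] (𝒜 : ℕ → AddSubgroup R) [GradedRing 𝒜]

/-- the homogenization with coefficients in the ring -/
noncomputable def hR0 : (⨁ i, 𝒜 i) →+* R[X] :=
  DirectSum.toSemiring
    (fun i => (monomial (R := R) i).toAddMonoidHom.comp (𝒜 i).subtype)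
    (by
      show monomial 0 (1 : R) = 1
      rfl)
    (by
      intro a b x y
      show monomial (a + b) ((x : R) * (y : R)) = monomial a (x : R) * monomial b (y : R)
      rw [monomial_mul_monomial])

/-- the homogenization -/
noncomputable def hR : R →+* R[X] := (hR0 𝒜).comp (decomposeRingEquiv 𝒜 : R →+* ⨁ i, 𝒜 i)

theorem hR_of_mem {n : ℕ} {x : R} (hx : x ∈ 𝒜 n) : hR 𝒜 x = monomial n x := by
  classical
  show hR0 𝒜 (decompose 𝒜 x) = _
  have h1 : decompose 𝒜 x = DirectSum.of (fun i => 𝒜 i) n ⟨x, hx⟩ :=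
    decompose_of_mem 𝒜 hx
  rw [h1, hR0, DirectSum.toSemiring_of]
  rfl

theorem coeff_hR (x : R) (n : ℕ) : (hR 𝒜 x).coeff n = (decompose 𝒜 x n : R) := by
  classical
  induction x using DirectSum.Decomposition.inductionOn 𝒜 with
  | zero => simp
  | homogeneous m =>
    rename_i i
    rw [hR_of_mem 𝒜 m.2, coeff_monomial, decompose_coe, DirectSum.coe_of_apply]
    split_ifs <;> simp
  | add x y hx hy =>
    rw [map_add, coeff_add, hx, hy, decompose_add, DirectSum.add_apply, AddMemClass.coe_add]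

theorem eval_hR (x : R) : (hR 𝒜 x).eval 1 = x := by
  induction x using DirectSum.Decomposition.inductionOn 𝒜 with
  | zero => simp
  | homogeneous m => rw [hR_of_mem 𝒜 m.2, eval_monomial, one_pow, mul_one]
  | add x y hx hy => rw [map_add, eval_add, hx, hy]

end hom

section sub

variable {R : Type} [CommRing R] (𝒜 : ℕ → AddSubgroup R) [GradedRing 𝒜] (T : Subring R)

/-- polynomials over the subring -/
noncomputable def iT : T[X] →+* R[X] := mapRingHom T.subtype

theorem iT_inj : Function.Injective (iT T) := map_injective _ T.subtype_injective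

/-- the homogenization on a subring which contains the homogeneous components of its elements -/
noncomputable def rT (hT : ∀ x : T, hR 𝒜 (x : R) ∈ (iT T).range) : T →+* T[X] :=
  (RingEquiv.ofBijective (iT T).rangeRestrict
    ⟨fun _ _ h => iT_inj T (congrArg Subtype.val h), (iT T).rangeRestrict_surjective⟩).symm.toRingHom.comp
    (((hR 𝒜).comp T.subtype).codRestrict (iT T).range hT)

theorem iT_rT (hT : ∀ x : T, hR 𝒜 (x : R) ∈ (iT T).range) (x : T) :
    iT T (rT 𝒜 T hT x) = hR 𝒜 (x : R) := by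
  let e := RingEquiv.ofBijective (iT T).rangeRestrict
    ⟨fun _ _ h => iT_inj T (congrArg Subtype.val h), (iT T).rangeRestrict_surjective⟩
  have h1 : e (rT 𝒜 T hT x) = (((hR 𝒜).comp T.subtype).codRestrict (iT T).range hT) x :=
    e.apply_symm_apply _
  exact congrArg Subtype.val h1

theorem coeff_rT (hT : ∀ x : T, hR 𝒜 (x : R) ∈ (iT T).range) (x : T) (n : ℕ) :
    ((rT 𝒜 T hT x).coeff n : R) = (decompose 𝒜 (x : R) n : R) := by
  rw [← coeff_hR, ← iT_rT 𝒜 T hT x]
  show _ = (Polynomial.map T.subtype (rT 𝒜 T hT x)).coeff n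
  rw [coeff_map]
  rfl

theorem eval_rT (hT : ∀ x : T, hR 𝒜 (x : R) ∈ (iT T).range) (x : T) :
    (rT 𝒜 T hT x).eval 1 = x := by
  apply Subtype.ext
  have h1 : (iT T (rT 𝒜 T hT x)).eval 1 = (x : R) := by rw [iT_rT, eval_hR]
  rw [← h1]
  show T.subtype (eval 1 (rT 𝒜 T hT x)) = eval 1 (Polynomial.map T.subtype (rT 𝒜 T hT x))
  rw [eval_one_map]

variable {C : ∀ (G : Type) [Group G], Prop}

/-- the Noetherian case -/
theorem noeth_graded (hC : ClosedE C) (hsol : ∀ (S : Type) [Group S], Group.IsSolvable S → C S)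
    (B : Subring R) (hB : ∀ x ∈ B, x ∈ 𝒜 0) (hBT : B ≤ T)
    (H : ∀ (S : Subring R), B ≤ S → (∀ x ∈ S, x ∈ 𝒜 0) → ∀ (K : Type) [Field K] (h : S →+* K),
      C (G2 h.range))
    [IsNoetherianRing T] (hT : ∀ x : T, hR 𝒜 (x : R) ∈ (iT T).range) : C (G2 T) := by
  refine noeth hC hsol fun p hp => ?_
  let K := FractionRing (T ⧸ p)
  let j : T →+* K := (algebraMap (T ⧸ p) K).comp (Ideal.Quotient.mk p)
  have hj : ∀ x, j x = 0 → x ∈ p := by
    intro x hx
    rw [← Ideal.Quotient.eq_zero_iff_mem]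
    apply IsFractionRing.injective (T ⧸ p) K
    rw [map_zero]
    exact hx
  let r : T →+* K[X] := (mapRingHom j).comp (rT 𝒜 T hT)
  refine ⟨RingHom.ker r, ?_, q_ker hC r ?_⟩
  · intro x hx
    apply hj
    have h1 : (r x).eval 1 = j x := by
      show (Polynomial.map j (rT 𝒜 T hT x)).eval 1 = _
      rw [eval_one_map, eval_rT]
    have h2 : r x = 0 := hx
    rw [← h1, h2, eval_zero]
  · let S : Subring R := ((T.subtype.comp (constantCoeff : T[X] →+* T)).comp (rT 𝒜 T hT)).range
    have hST : S ≤ T := by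
      rintro _ ⟨x, rfl⟩
      exact (constantCoeff (rT 𝒜 T hT x)).2
    have hS0 : ∀ x ∈ S, x ∈ 𝒜 0 := by
      rintro _ ⟨x, rfl⟩
      show ((rT 𝒜 T hT x).coeff 0 : R) ∈ 𝒜 0
      rw [coeff_rT]
      exact (decompose 𝒜 (x : R) 0).2
    have hBS : B ≤ S := by
      intro b hb
      refine ⟨⟨b, hBT hb⟩, ?_⟩
      show ((rT 𝒜 T hT ⟨b, hBT hb⟩).coeff 0 : R) = b
      rw [coeff_rT]
      exact decompose_of_mem_same 𝒜 (hB b hb)
    have h1 := H S hBS hS0 K (j.comp (Subring.inclusion hST))
    refine sub_poly r.range.subtype hC hsol r.range.subtype_injective ?_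
    have hle : ((constantCoeff : K[X] →+* K).comp r.range.subtype).range ≤
        (j.comp (Subring.inclusion hST)).range := by
      rintro _ ⟨⟨_, x, rfl⟩, rfl⟩
      refine ⟨⟨(constantCoeff (rT 𝒜 T hT x) : T), ⟨x, rfl⟩⟩, ?_⟩
      show j (constantCoeff (rT 𝒜 T hT x)) = constantCoeff (Polynomial.map j (rT 𝒜 T hT x))
      rw [constantCoeff_apply, constantCoeff_apply, coeff_map]
    exact of_ringEquiv hC (Subring.inclusion hle) (Subring.inclusion_injective hle) h1

end sub

end Pool.Agent.N510.GR
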