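import Pool.Agent.N77.GL.Sq

/-!
# Rings which embed in a polynomial ring over a division ring
-/

set_option autoImplicit false

namespace Pool.Agent.N510.GR

open Pool.Agent.Y110.FJ
open Pool.Agent.N77.GL
open Polynomial

/-- the degree of polynomials over a division ring -/
noncomputable def divDeg (K : Type) [DivisionRing K] : Deg K[X] where
  d := degree
  bot_iff _ := degree_eq_bot
  mul _ _ := degree_mul
  add := degree_add_le
  neg := degree_neg
  one := degree_one
  unit a ha := by
    obtain ⟨c, hc⟩ : ∃ c, a = C c := ⟨_, eq_C_of_degree_eq_zero ha⟩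
    subst hc
    have h2 : c ≠ 0 := by
      rintro rfl
      rw [C_0, degree_zero] at ha
      exact absurd ha (by simp)
    exact ⟨C c⁻¹, by rw [← C_mul, mul_inv_cancel₀ h2, C_1]⟩
  wa a b u v h1 h2 h3 := by
    have hb : b ≠ 0 := by
      rintro rfl
      rw [zero_mul, degree_zero] at h2
      rw [h2] at h1
      exact absurd h1 not_lt_bot
    have hc : b.leadingCoeff ≠ 0 := leadingCoeff_ne_zero.2 hb
    have hC : (C b.leadingCoeff⁻¹ : K[X]) ≠ 0 := by
      rw [Ne, C_eq_zero]; exact inv_ne_zero hc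
    have hm : Monic (b * C b.leadingCoeff⁻¹) := by
      rw [Monic, leadingCoeff_mul, leadingCoeff_C, mul_inv_cancel₀ hc]
    have hd : degree (b * C b.leadingCoeff⁻¹) = degree b := by
      rw [degree_mul, degree_C (inv_ne_zero hc), add_zero]
    refine ⟨C b.leadingCoeff⁻¹ * (a /ₘ (b * C b.leadingCoeff⁻¹)), ?_⟩
    have e := modByMonic_add_div a (b * C b.leadingCoeff⁻¹)
    have e1 : a - b * (C b.leadingCoeff⁻¹ * (a /ₘ (b * C b.leadingCoeff⁻¹))) =
        a %ₘ (b * C b.leadingCoeff⁻¹) := by
      rw [← mul_assoc]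
      exact sub_eq_iff_eq_add.2 e.symm
    rw [e1]
    refine (degree_modByMonic_lt a hm).trans_le ?_
    rw [hd]
    exact h3

/-- the polynomials divisible by `X ^ (m + 1)` -/
noncomputable def tI (K : Type) [DivisionRing K] (m : ℕ) : Ideal K[X] where
  carrier := {p | ∀ d < m + 1, p.coeff d = 0}
  zero_mem' := fun d _ => coeff_zero d
  add_mem' := fun {a b} ha hb d hd => by rw [coeff_add, ha d hd, hb d hd, add_zero]
  smul_mem' := fun c x hx d hd => by
    rw [smul_eq_mul, coeff_mul]
    refine Finset.sum_eq_zero fun ij hij => ?_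
    rw [Finset.HasAntidiagonal.mem_antidiagonal] at hij
    rw [hx ij.2 (by omega), mul_zero]

theorem mem_tI {K : Type} [DivisionRing K] {m : ℕ} {p : K[X]} :
    p ∈ tI K m ↔ ∀ d < m + 1, p.coeff d = 0 := Iff.rfl

instance (K : Type) [DivisionRing K] (m : ℕ) : (tI K m).IsTwoSided := ⟨by
  intro a b ha
  rw [mem_tI] at ha ⊢
  intro d hd
  rw [coeff_mul]
  refine Finset.sum_eq_zero fun ij hij => ?_
  rw [Finset.HasAntidiagonal.mem_antidiagonal] at hij
  rw [ha ij.1 (by omega), zero_mul]⟩

/-- truncated polynomials -/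
abbrev TD (K : Type) [DivisionRing K] (m : ℕ) : Type := K[X] ⧸ tI K m

/-- the reduction -/
noncomputable def tq (K : Type) [DivisionRing K] (m : ℕ) : K[X] →+* TD K m := Ideal.Quotient.mk (tI K m)

theorem tq_zero {K : Type} [DivisionRing K] {m : ℕ} {p : K[X]} :
    tq K m p = 0 ↔ ∀ d < m + 1, p.coeff d = 0 := Ideal.Quotient.eq_zero_iff_mem

variable {T K : Type} [Ring T] [DivisionRing K] (ρ : T →+* K[X])

/-- the image of the ring in the truncated polynomials -/
noncomputable abbrev RT (m : ℕ) : Subring (TD K m) := ((tq K m).comp ρ).range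

theorem tI_le (m : ℕ) : tI K (m + 1) ≤ tI K m := fun _ hp d hd => hp d (by omega)

/-- the change of the level -/
noncomputable def lev (m : ℕ) : RT ρ (m + 1) →+* RT ρ m :=
  ((Ideal.Quotient.factor (tI_le (K := K) m)).comp (RT ρ (m + 1)).subtype).codRestrict (RT ρ m) (by
    rintro ⟨_, t, rfl⟩
    exact ⟨t, rfl⟩)

theorem rt_C {C : ∀ (G : Type) [Group G], Prop} (hC : ClosedE C)
    (hsol : ∀ (S : Type) [Group S], Group.IsSolvable S → C S)
    (h : C (G2 ((constantCoeff : K[X] →+* K).comp ρ).range)) (m : ℕ) : C (G2 (RT ρ m)) := by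
  induction m with
  | zero =>
    have h0 : ∀ a : K[X], a ∈ tI K 0 → (constantCoeff : K[X] →+* K) a = 0 := by
      intro a ha
      rw [constantCoeff_apply]
      exact ha 0 (by omega)
    let f : TD K 0 →+* K := Ideal.Quotient.lift (tI K 0) (constantCoeff : K[X] →+* K) h0
    have hf : ∀ p, f (tq K 0 p) = p.coeff 0 := fun p => rfl
    let g : RT ρ 0 →+* ((constantCoeff : K[X] →+* K).comp ρ).range :=
      (f.comp (RT ρ 0).subtype).codRestrict _ (by
        rintro ⟨_, t, rfl⟩
        exact ⟨t, rfl⟩)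
    refine of_ringEquiv hC g ?_ h
    rw [injective_iff_map_eq_zero]
    rintro ⟨_, t, rfl⟩ hx
    have h1 : f (tq K 0 (ρ t)) = 0 := congrArg Subtype.val hx
    rw [hf] at h1
    apply Subtype.ext
    show tq K 0 (ρ t) = 0
    rw [tq_zero]
    intro d hd
    have : d = 0 := by omega
    subst this
    exact h1
  | succ m ih =>
    refine ext_sq hC hsol (lev ρ m) ?_ ih
    rintro ⟨_, s, rfl⟩ ⟨_, t, rfl⟩ hx hy
    have hx1 : tq K m (ρ s) = 0 := congrArg Subtype.val hx
    have hy1 : tq K m (ρ t) = 0 := congrArg Subtype.val hy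
    rw [tq_zero] at hx1 hy1
    apply Subtype.ext
    show tq K (m + 1) (ρ s) * tq K (m + 1) (ρ t) = 0
    rw [← map_mul, tq_zero]
    intro d hd
    rw [coeff_mul]
    refine Finset.sum_eq_zero fun ij hij => ?_
    rw [Finset.HasAntidiagonal.mem_antidiagonal] at hij
    by_cases hi : ij.1 < m + 1
    · rw [hx1 _ hi, zero_mul]
    · rw [hy1 _ (by omega), mul_zero]

/-- **rings which embed in a polynomial ring over a division ring** -/
theorem sub_poly {C : ∀ (G : Type) [Group G], Prop} (hC : ClosedE C)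
    (hsol : ∀ (S : Type) [Group S], Group.IsSolvable S → C S) (hρ : Function.Injective ρ)
    (h : C (G2 ((constantCoeff : K[X] →+* K).comp ρ).range)) : C (G2 T) := by
  refine main_abs hC (divDeg K) ρ hρ (fun m => TD K m) (fun m => RT ρ m) (fun m => tq K m) ?_
    (fun m => ((tq K m).comp ρ).rangeRestrict) (fun m => (RT ρ m).subtype)
    (fun m => (RT ρ m).subtype_injective) (fun m t => rfl) (fun m => rt_C ρ hC hsol h m)
  intro m a hd ha
  rw [tq_zero] at ha
  ext n
  rw [coeff_zero]
  by_cases hn : n < m + 1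
  · exact ha n hn
  · apply coeff_eq_zero_of_degree_lt
    refine lt_of_le_of_lt hd ?_
    exact_mod_cast (by omega : m < n)

end Pool.Agent.N510.GR
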