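import Pool.Agent.N510.GR.Div
import Mathlib.RingTheory.GradedAlgebra.Basic

/-!
# Graded rings which embed in a division ring
-/

set_option autoImplicit false

namespace Pool.Agent.N510.GR

open Pool.Agent.Y110.FJ
open Pool.Agent.N77.GL
open Polynomial DirectSum

variable {R K : Type} [Ring R] [DivisionRing K] (𝒜 : ℕ → AddSubgroup R) [GradedRing 𝒜] (j : R →+* K)

/-- the homogenization on the direct sum -/
noncomputable def hom0 : (⨁ i, 𝒜 i) →+* K[X] :=
  DirectSum.toSemiring
    (fun i => ((monomial (R := K) i).toAddMonoidHom.comp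
      (j : R →+ K)).comp (𝒜 i).subtype)
    (by
      show monomial 0 (j (1 : R)) = 1
      rw [map_one]; rfl)
    (by
      intro a b x y
      show monomial (a + b) (j ((x : R) * (y : R))) = monomial a (j x) * monomial b (j y)
      rw [map_mul, monomial_mul_monomial])

/-- the homogenization -/
noncomputable def hmg : R →+* K[X] := (hom0 𝒜 j).comp (decomposeRingEquiv 𝒜 : R →+* ⨁ i, 𝒜 i)

theorem coeff_hom0 (x : ⨁ i, 𝒜 i) (n : ℕ) : (hom0 𝒜 j x).coeff n = j (x n : R) := by
  classical
  induction x using DirectSum.induction_on with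
  | zero => simp
  | of i x =>
    have : hom0 𝒜 j (DirectSum.of (fun i => 𝒜 i) i x) = monomial i (j (x : R)) := by
      rw [hom0, DirectSum.toSemiring_of]
      rfl
    rw [this, coeff_monomial, DirectSum.coe_of_apply]
    split_ifs <;> simp
  | add x y hx hy =>
    rw [map_add, coeff_add, hx, hy, DirectSum.add_apply, AddMemClass.coe_add, map_add]

theorem coeff_hmg (x : R) (n : ℕ) : (hmg 𝒜 j x).coeff n = j (decompose 𝒜 x n : R) :=
  coeff_hom0 𝒜 j _ n

theorem hmg_inj (hj : ∀ n, ∀ x ∈ 𝒜 n, j x = 0 → x = 0) : Function.Injective (hmg 𝒜 j) := by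
  rw [injective_iff_map_eq_zero]
  intro x hx
  have h1 : ∀ n, (decompose 𝒜 x n : R) = 0 := by
    intro n
    apply hj n _ (decompose 𝒜 x n).2
    rw [← coeff_hmg, hx, coeff_zero]
  have h2 : decompose 𝒜 x = 0 := by
    refine DFinsupp.ext fun n => Subtype.ext ?_
    exact h1 n
  exact (decompose 𝒜).injective (by rw [h2, decompose_zero])

/-- **graded rings with a homomorphism to a division ring which is injective on the homogeneous
elements** -/
theorem graded {C : ∀ (G : Type) [Group G], Prop} (hC : ClosedE C)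
    (hsol : ∀ (S : Type) [Group S], Group.IsSolvable S → C S)
    (hj : ∀ n, ∀ x ∈ 𝒜 n, j x = 0 → x = 0) :
    C (G2 R) ↔ C (G2 (𝒜 0)) := by
  constructor
  · intro h
    exact of_ringEquiv hC (SetLike.GradeZero.subring 𝒜).subtype Subtype.val_injective h
  · intro h
    refine sub_poly (hmg 𝒜 j) hC hsol (hmg_inj 𝒜 j hj) ?_
    let f : (𝒜 0) →+* ((constantCoeff : K[X] →+* K).comp (hmg 𝒜 j)).range :=
      (j.comp (SetLike.GradeZero.subring 𝒜).subtype).codRestrict _ (by
        intro x
        refine ⟨x.1, ?_⟩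
        show (hmg 𝒜 j x.1).coeff 0 = j x.1
        rw [coeff_hmg, decompose_of_mem_same 𝒜 x.2])
    have hf : Function.Bijective f := by
      constructor
      · intro x y hxy
        have h1 : j (x : R) = j (y : R) := congrArg Subtype.val hxy
        have h2 := hj 0 ((x : R) - (y : R)) ((𝒜 0).sub_mem x.2 y.2) (by rw [map_sub, h1, sub_self])
        exact Subtype.ext (sub_eq_zero.1 h2)
      · rintro ⟨_, t, rfl⟩
        refine ⟨decompose 𝒜 t 0, Subtype.ext ?_⟩
        exact (coeff_hmg 𝒜 j t 0).symm
    exact of_ringEquiv hC (RingEquiv.ofBijective f hf).symm.toRingHom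
      (RingEquiv.ofBijective f hf).symm.injective h

end Pool.Agent.N510.GR
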