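import Pool.Agent.N510.GR.Grad

/-!
# Noetherian commutative rings and their quotients
-/

set_option autoImplicit false

namespace Pool.Agent.N510.GR

open Pool.Agent.Y110.FJ
open Pool.Agent.N77.GL
open Polynomial

variable {C : ∀ (G : Type) [Group G], Prop} {T : Type} [CommRing T]

theorem q_top (hsol : ∀ (S : Type) [Group S], Group.IsSolvable S → C S) :
    C (G2 (T ⧸ (⊤ : Ideal T))) := by
  have h1 : Subsingleton (T ⧸ (⊤ : Ideal T)) := Ideal.Quotient.subsingleton_iff.2 rfl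
  apply hsol
  refine Group.isSolvable_of_comm fun a b => ?_
  apply Units.ext
  ext i j
  exact Subsingleton.elim _ _

theorem q_inf (hC : ClosedE C) {I J : Ideal T} (hI : C (G2 (T ⧸ I))) (hJ : C (G2 (T ⧸ J))) :
    C (G2 (T ⧸ (I ⊓ J))) := by
  let f1 : T ⧸ (I ⊓ J) →+* T ⧸ I := Ideal.Quotient.factor inf_le_left
  let f2 : T ⧸ (I ⊓ J) →+* T ⧸ J := Ideal.Quotient.factor inf_le_right
  refine hC.base.of_injective _ _ ((mG f1).prod (mG f2)) ?_ (hC.base.prod _ _ hI hJ)
  intro M N h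
  apply Units.ext
  ext i j
  have e1 : mG f1 M = mG f1 N := congrArg Prod.fst h
  have e2 : mG f2 M = mG f2 N := congrArg Prod.snd h
  have e3 : f1 (M.1 i j) = f1 (N.1 i j) := by rw [← mG_apply, ← mG_apply, e1]
  have e4 : f2 (M.1 i j) = f2 (N.1 i j) := by rw [← mG_apply, ← mG_apply, e2]
  obtain ⟨a, ha⟩ := Ideal.Quotient.mk_surjective (M.1 i j)
  obtain ⟨b, hb⟩ := Ideal.Quotient.mk_surjective (N.1 i j)
  rw [← ha, ← hb] at e3 e4 ⊢
  rw [Ideal.Quotient.factor_mk, Ideal.Quotient.factor_mk, Ideal.Quotient.eq] at e3 e4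
  rw [Ideal.Quotient.eq]
  exact ⟨e3, e4⟩

theorem q_sq (hC : ClosedE C) (hsol : ∀ (S : Type) [Group S], Group.IsSolvable S → C S)
    {I : Ideal T} (hI : C (G2 (T ⧸ I))) : C (G2 (T ⧸ I ^ 2)) := by
  refine ext_sq hC hsol (Ideal.Quotient.factor (Ideal.pow_le_self two_ne_zero) : T ⧸ I ^ 2 →+* T ⧸ I)
    ?_ hI
  intro x y hx hy
  obtain ⟨a, rfl⟩ := Ideal.Quotient.mk_surjective x
  obtain ⟨b, rfl⟩ := Ideal.Quotient.mk_surjective y
  rw [Ideal.Quotient.factor_mk, Ideal.Quotient.eq_zero_iff_mem] at hx hy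
  rw [← map_mul, Ideal.Quotient.eq_zero_iff_mem, pow_two]
  exact Ideal.mul_mem_mul hx hy

theorem q_pow (hC : ClosedE C) (hsol : ∀ (S : Type) [Group S], Group.IsSolvable S → C S)
    {I : Ideal T} (hI : C (G2 (T ⧸ I))) (n : ℕ) : C (G2 (T ⧸ I ^ 2 ^ n)) := by
  induction n with
  | zero =>
    rw [pow_zero, pow_one]
    exact hI
  | succ n ih =>
    rw [pow_succ, pow_mul]
    exact q_sq hC hsol ih

theorem q_nil (hC : ClosedE C) (hsol : ∀ (S : Type) [Group S], Group.IsSolvable S → C S)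
    {I : Ideal T} (hI : C (G2 (T ⧸ I))) (hn : IsNilpotent I) : C (G2 T) := by
  obtain ⟨n, hn⟩ := hn
  have h1 : I ^ 2 ^ n = ⊥ := by
    rw [eq_bot_iff]
    have h2 : I ^ 2 ^ n ≤ I ^ n := Ideal.pow_le_pow_right (Nat.lt_two_pow_self).le
    rw [hn] at h2
    exact h2
  have h2 := q_pow hC hsol hI n
  rw [h1] at h2
  refine of_ringEquiv hC (Ideal.Quotient.mk (⊥ : Ideal T)) ?_ h2
  rw [injective_iff_map_eq_zero]
  intro a ha
  rw [Ideal.Quotient.eq_zero_iff_mem] at ha
  exact ha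

/-- Noetherian rings -/
theorem noeth (hC : ClosedE C) (hsol : ∀ (S : Type) [Group S], Group.IsSolvable S → C S)
    [IsNoetherianRing T] (h : ∀ p : Ideal T, p.IsPrime → ∃ N : Ideal T, N ≤ p ∧ C (G2 (T ⧸ N))) :
    C (G2 T) := by
  classical
  have hfin : (minimalPrimes T).Finite := minimalPrimes.finite_of_isNoetherianRing T
  have h' : ∀ p : Ideal T, ∃ N : Ideal T, (p ∈ minimalPrimes T → N ≤ p) ∧ C (G2 (T ⧸ N)) := by
    intro p
    by_cases hp : p ∈ minimalPrimes T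
    · obtain ⟨N, h1, h2⟩ := h p hp.1.1
      exact ⟨N, fun _ => h1, h2⟩
    · exact ⟨⊤, fun h => absurd h hp, q_top hsol⟩
  choose N hN1 hN2 using h'
  have hs : ∀ s : Finset (Ideal T), C (G2 (T ⧸ s.inf N)) := by
    intro s
    induction s using Finset.induction_on with
    | empty => exact q_top hsol
    | insert a s _ ih =>
      rw [Finset.inf_insert]
      exact q_inf hC (hN2 a) ih
  refine q_nil hC hsol (hs hfin.toFinset) ?_
  obtain ⟨n, hn⟩ := IsNoetherianRing.isNilpotent_nilradical T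
  refine ⟨n, ?_⟩
  have hle : hfin.toFinset.inf N ≤ nilradical T := by
    rw [nilradical, ← Ideal.sInf_minimalPrimes]
    refine le_sInf fun p hp => ?_
    have hp' : p ∈ minimalPrimes T := hp
    exact (Finset.inf_le (hfin.mem_toFinset.2 hp')).trans (hN1 p hp')
  have h1 := Ideal.pow_right_mono hle n
  rw [hn] at h1
  exact eq_bot_iff.2 h1

theorem q_ker {S : Type} [Ring S] (hC : ClosedE C) (f : T →+* S) (h : C (G2 f.range)) :
    C (G2 (T ⧸ RingHom.ker f)) :=
  of_ringEquiv hC (RingHom.quotientKerEquivRange f).toRingHom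
    (RingHom.quotientKerEquivRange f).injective h

end Pool.Agent.N510.GR
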